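import Pool.Agent.Run7.h152.C2.Main

/-!
# From the definitions to the technical forms
-/

set_option autoImplicit false

open CategoryTheory AlgebraicGeometry

universe u v w

namespace Run7.h152.C2

open Pool.Agent.H914 Pool.Agent.H914.VarClass Pool.Agent.H914.VarClass.Obj
  Pool.Agent.H914.WeilCohomology Run7.h152.DR Run7.h152.HL

variable {k : Type u} [Field k] {𝒱 : VarClass k} {ops : CycleOps 𝒱}
  {W : WeilCohomology.{u, v} ops} {q : ℕ} {φ : ∀ X : 𝒱.Obj, W.H X → W.H X}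

lemma natCast_mul_eq {X : 𝒱.Obj} (n : ℕ) (x : W.H X) : (n : W.H X) * x = (n : W.K) • x := by
  rw [Nat.cast_smul_eq_nsmul, nsmul_eq_mul]

lemma natCast_pow_mul_eq {X : 𝒱.Obj} (n p : ℕ) (x : W.H X) :
    (n : W.H X) ^ p * x = (n : W.K) ^ p • x := by
  rw [← Nat.cast_pow, natCast_mul_eq, Nat.cast_pow]

/-- The Frobenius as an algebra homomorphism. -/
def algFr (hφ : IsFrobenius W q φ) (X : 𝒱.Obj) : W.H X →ₐ[W.K] W.H X :=
  AlgHom.ofLinearMap
    { toFun := φ X
      map_add' := (hφ.isFrobeniusOn X).map_add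
      map_smul' := (hφ.isFrobeniusOn X).map_smul } (hφ.isFrobeniusOn X).map_one
    (hφ.isFrobeniusOn X).map_mul

lemma algFr_apply (hφ : IsFrobenius W q φ) (X : 𝒱.Obj) (x : W.H X) : algFr hφ X x = φ X x := rfl

lemma frobA (hφ : IsFrobenius W q φ) : FrobA W q (algFr hφ) where
  one_lt := hφ.one_lt
  mem X := (hφ.isFrobeniusOn X).mem
  pull X Y f x := hφ.pull X Y f x
  cl X p z hz := by
    rw [algFr_apply, ← natCast_pow_mul_eq]
    exact hφ.cl X p z hz
  tr X := (hφ.isFrobeniusOn X).tr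

lemma tateA (hφ : IsFrobenius W q φ) {X : 𝒱.Obj} (hT : TateForDivisors W q X (φ X)) :
    TateA W q (algFr hφ) X := fun x hx hx' => hT x hx (by
  rw [IsEigen, natCast_pow_mul_eq, pow_one]
  exact hx')

lemma lefA {X : 𝒱.Obj} {h : X.Cycles} {e : ℕ} (hL : HardLefschetzTwo W X h e) : LefA W X h e := by
  have e1 : clC W (powC ops h e) = W.cl X h ^ e := cl_powC e
  rw [HardLefschetzTwo, e1] at hL
  exact hL

lemma killed_iff {T : Tower 𝒱} {i : ℕ} {x : CohO W (T.Q 0)} :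
    Killed W T i x ↔ KilledA W T i x :=
  ⟨fun h => ⟨h.1, funext h.2⟩, fun h => ⟨h.1, fun l => congrFun h.2 l⟩⟩

lemma powO_eq {a : ℕ} {Q : Fin a → 𝒱.Obj} (h : CycO Q) (e : ℕ) : powO W h e = clO W h ^ e :=
  funext fun l => cl_powC e

lemma genA {T : Tower 𝒱} {h : CycO (T.Q 0)} {e : ℕ} (hG : GenericLefschetz W T h e) :
    GenA W T h e where
  inj x hx hn := hG.inj x (killed_iff.2 hx) (by rw [powO_eq]; exact hn)
  surj y hy := by
    obtain ⟨x, hx, hn⟩ := hG.surj y (killed_iff.2 hy)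
    rw [powO_eq] at hn
    exact ⟨x, killed_iff.1 hx, hn⟩

theorem noInvariantsInThree {T : Tower 𝒱} {h : ∀ p, CycO (T.Q p)} (hφ : IsFrobenius W q φ)
    (hP : IsPolarised W T h) {e : ℕ} (hdim : ∀ p l, (T.Q p l).dim + p = e + 3)
    (hT : ∀ l, TateForDivisors W q (T.Q 0 l) (φ _)) : NoInvariantsInThree W T q φ := by
  intro x hx hx'
  refine isNull_of_invariant (frobA hφ) hP hdim (fun l => tateA hφ (hT l)) (killed_iff.1 hx) ?_
  have e1 : subF (fun l => φ _ (x l)) (timesF q x) =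
      frO (algFr hφ) (T.Q 0) x - (q : W.K) • x := by
    funext l
    change φ _ (x l) - (q : W.H (T.Q 0 l)) * x l = φ _ (x l) - (q : W.K) • x l
    rw [natCast_mul_eq]
  rw [← e1]
  exact hx'

theorem HasTateAlteration.hasLifts {A : Arith.{w}} {e : ℕ}
    (h : HasTateAlteration.{u, v, w} A e) : A.HasLifts := by
  obtain ⟨A', Y, h, q, φ, ⟨ψ⟩, hY, hP, hφ, hG, hL, hT⟩ := h
  have hdim : ∀ p l, (Y.T.Q p l).dim + p = e + 3 := fun p l => by
    have := hY.dim p l
    omega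
  have hd0 : ∀ l, (Y.T.Q 0 l).dim = e + 1 + 2 := fun l => by have := hdim 0 l; omega
  exact ψ.hasLifts (hY.hasLifts ((noInvariants (frobA hφ) hP hdim (fun l => tateA hφ (hT l))
    (genA hG)).numBoundary hY.dim
    fun l => homNumAt (frobA hφ) (hP.index 0) hd0 (fun l => tateA hφ (hT l))
      (fun l => lefA (hL l)) l))

end Run7.h152.C2
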