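import Pool.Agent.Run7.h152.C2.Fr

/-!
# Local invariants of `H^3` and Tate's conjecture for divisors
-/

set_option autoImplicit false

open CategoryTheory AlgebraicGeometry

universe u v w

namespace Run7.h152.C2

open Pool.Agent.H914 Pool.Agent.H914.VarClass Pool.Agent.H914.VarClass.Obj
  Pool.Agent.H914.WeilCohomology Run7.h152.DR Run7.h152.HL

variable {k : Type u} [Field k] {𝒱 : VarClass k} {ops : CycleOps 𝒱}
  {W : WeilCohomology.{u, v} ops} {q : ℕ} {φ : ∀ X : 𝒱.Obj, W.H X →ₐ[W.K] W.H X}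

section Family

variable {a : ℕ} {Q : Fin a → 𝒱.Obj}

lemma trO_sum_left {ι : Type*} (s : Finset ι) (c : ι → W.K) (x : ι → CohO W Q) (y : CohO W Q) :
    trO (∑ b ∈ s, c b • x b) y = ∑ b ∈ s, c b * trO (x b) y := by
  classical
  induction s using Finset.induction_on with
  | empty => rw [Finset.sum_empty, Finset.sum_empty, trO_zero]
  | insert i s hi ih => rw [Finset.sum_insert hi, Finset.sum_insert hi, trO_add, trO_smul, ih]

/-- The classes of families of divisors. -/
def divs (W : WeilCohomology.{u, v} ops) (Q : Fin a → 𝒱.Obj) : Set (CohO W Q) :=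
  {x | AlgO W Q 1 x}

/-- The decomposition of combinations of divisor classes. -/
lemma exists_decomp {x : CohO W Q} (hx : x ∈ Submodule.span W.K (divs W Q)) :
    ∃ (s : Finset (Module.Basis.ofVectorSpaceIndex ℚ W.K))
      (b : Module.Basis.ofVectorSpaceIndex ℚ W.K → CohO W Q), (∀ i, AlgO W Q 1 (b i)) ∧
        x = ∑ i ∈ s, (Module.Basis.ofVectorSpace ℚ W.K i) • b i :=
  exists_basis_sum (A := divs W Q) (fun l => ⟨0, SmVar.IsCyc.zero _ _, map_zero _⟩)
    (fun x hx y hy => AlgO.add (x := x) (y := y) hx hy) (fun q x hx => AlgO.smul (x := x) q hx) hx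

/-- The span of the divisor classes of families. -/
lemma mem_span_family {x : CohO W Q}
    (hx : ∀ l, x l ∈ Submodule.span W.K {y | ∃ z, (Q l).IsCyc 1 z ∧ W.cl (Q l) z = y}) :
    x ∈ Submodule.span W.K (divs W Q) := by
  classical
  have e1 : x = ∑ l, (Pi.single l (x l) : CohO W Q) := (Finset.univ_sum_single x).symm
  rw [e1]
  refine Submodule.sum_mem _ fun l _ => ?_
  refine Submodule.span_induction (p := fun y _ => (Pi.single l y : CohO W Q) ∈
    Submodule.span W.K (divs W Q)) ?_ ?_ ?_ ?_ (hx l)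
  · rintro y ⟨z, hz, rfl⟩
    refine Submodule.subset_span fun j => ?_
    by_cases hj : j = l
    · subst hj; exact ⟨z, hz, by rw [Pi.single_eq_same]⟩
    · exact ⟨0, SmVar.IsCyc.zero _ _, by rw [Pi.single_eq_of_ne hj, map_zero]⟩
  · rw [Pi.single_zero]; exact Submodule.zero_mem _
  · intro y z _ _ hy hz
    rw [Pi.single_add]; exact Submodule.add_mem _ hy hz
  · intro t y _ hy
    rw [Pi.single_smul]; exact Submodule.smul_mem _ _ hy

variable {h : CycO Q}

/-- The form is nondegenerate on the combinations of divisor classes. -/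
lemma eq_zero_of_orth (hI : ∀ l, HodgeIndex W (Q l) (h l)) {e : ℕ} (hd : ∀ l, (Q l).dim = e + 2)
    {x : CohO W Q} (hx : x ∈ Submodule.span W.K (divs W Q))
    (h0 : ∀ y, AlgO W Q 1 y → trO (clO W h ^ e * x) y = 0) : x = 0 := by
  obtain ⟨s, b, hb, rfl⟩ := exists_decomp hx
  have hH : AlgO W Q 1 (clO W h) := algO_clh hI
  have stara : ∀ {u}, AlgO W Q 1 u → AlgO W Q 1 (starO (clO W h) e u) := by
    intro u hu
    obtain ⟨q, hq⟩ := coefO_rat hI hd hu
    have h1 : AlgO W Q 1 (clO W h * oneO W Q q) := by simpa using hH.mul (algO_oneO q)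
    rw [starO, hq]
    have h2 := h1.smul 2
    rw [Rat.cast_ofNat] at h2
    exact h2.sub hu
  have h1 : ∀ i ∈ s, ∀ y, AlgO W Q 1 y → trO (clO W h ^ e * b i) y = 0 := by
    intro i hi y hy
    have h2 := h0 y hy
    rw [Finset.mul_sum] at h2
    simp only [mul_smul_comm] at h2
    rw [trO_sum_left] at h2
    exact coeff_zero (r := fun i => trO (clO W h ^ e * b i) y)
      (fun i => trO_rational hd (show e + 1 + 1 = e + 2 by omega) (hH.pow.mul (hb i)) hy) h2 i hi
  refine Finset.sum_eq_zero fun i hi => ?_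
  have h2 : b i = 0 := by
    refine (star_pos hI hd (hb i)).2 ?_
    have h3 := h1 i hi _ (stara (hb i))
    rw [trO_mul_left, (hb i).mul_comm, ← trO_mul_left] at h3
    exact h3
  rw [h2, smul_zero]

/-- Tate's conjecture for divisors for families. -/
lemma mem_span_of_frO {x : CohO W Q} (hT : ∀ l, TateA W q φ (Q l))
    (hx : ∀ l, x l ∈ W.gr _ 2) (hx' : frO φ Q x = (q : W.K) • x) :
    x ∈ Submodule.span W.K (divs W Q) :=
  mem_span_family fun l => hT l (x l) (hx l) (congrFun hx' l)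

/-- The normalised Frobenius. -/
def nfr (q : ℕ) (φ : ∀ X : 𝒱.Obj, W.H X →ₐ[W.K] W.H X) (Q : Fin a → 𝒱.Obj) :
    Module.End W.K (CohO W Q) := (q : W.K)⁻¹ • frO φ Q

lemma nfr_apply (x : CohO W Q) : nfr q φ Q x = (q : W.K)⁻¹ • frO φ Q x := rfl

lemma nfr_gr (hφ : FrobA W q φ) {i : ℕ} {x : CohO W Q} (hx : ∀ l, x l ∈ W.gr _ i) (l : Fin a) :
    nfr q φ Q x l ∈ W.gr _ i :=
  (W.gr _ i).smul_mem _ (hφ.mem _ _ _ (hx l))

/-- The Frobenius is semisimple at `q`. -/
lemma semisimple (hφ : FrobA W q φ) (hI : ∀ l, HodgeIndex W (Q l) (h l)) {e : ℕ}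
    (hd : ∀ l, (Q l).dim = e + 2) (hT : ∀ l, TateA W q φ (Q l)) (n : ℕ) :
    ∀ x : CohO W Q, (∀ l, x l ∈ W.gr _ 2) → ((nfr q φ Q - 1 : Module.End W.K _) ^ n) x = 0 →
      nfr q φ Q x = x := by
  have hq := hφ.q_ne
  have hH : AlgO W Q 1 (clO W h) := algO_clh hI
  induction n with
  | zero =>
    intro x _ h0
    rw [pow_zero, Module.End.one_apply] at h0
    rw [h0, map_zero]
  | succ n ih =>
    intro x hx h0
    rw [pow_succ, Module.End.mul_apply] at h0
    set y := (nfr q φ Q - 1 : Module.End W.K _) x with hy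
    have hy' : y = nfr q φ Q x - x := rfl
    have hyg : ∀ l, y l ∈ W.gr _ 2 := fun l => (W.gr _ 2).sub_mem (nfr_gr hφ hx l) (hx l)
    have h1 := ih y hyg h0
    have h2 : frO φ Q y = (q : W.K) • y := by
      rw [nfr_apply] at h1
      conv_rhs => rw [← h1]
      rw [smul_smul, mul_inv_cancel₀ hq, one_smul]
    have h3 : y = 0 := by
      refine eq_zero_of_orth hI hd (mem_span_of_frO hT hyg h2) fun z hz => ?_
      have h4 := trO_frO hφ hd (clO W h ^ e * x) z
      rw [frO_mul, frO_alg hφ (hH.pow (p := e)), frO_alg hφ hz, pow_one, smul_mul_assoc, trO_smul,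
        trO_smul_right] at h4
      have h5 : trO (clO W h ^ e * frO φ Q x) z = (q : W.K) * trO (clO W h ^ e * x) z := by
        have h6 : ((q : W.K) ^ e * (q : W.K)) ≠ 0 := mul_ne_zero (pow_ne_zero _ hq) hq
        apply mul_left_cancel₀ h6
        rw [mul_assoc, h4]
        ring
      rw [hy', mul_sub, trO_sub, nfr_apply, mul_smul_comm, trO_smul, h5, ← mul_assoc,
        inv_mul_cancel₀ hq, one_mul, sub_self]
    rw [hy'] at h3
    exact sub_eq_zero.1 h3

end Family

/-! ### One-dimensional cycles on the components -/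

/-- Tate's conjecture for divisors implies that numerically trivial one-dimensional cycles are
homologically trivial. -/
theorem homNumAt (hφ : FrobA W q φ) {a : ℕ} {Q : Fin a → 𝒱.Obj} {h : CycO Q}
    (hI : ∀ l, HodgeIndex W (Q l) (h l)) {e : ℕ} (hd : ∀ l, (Q l).dim = e + 2)
    (hT : ∀ l, TateA W q φ (Q l)) (hL : ∀ l, LefA W (Q l) (h l) e) (l : Fin a) :
    HomNumAt W (Q l) (e + 1) := by
  classical
  intro _ z hz hz'
  have hq := hφ.q_ne
  obtain ⟨x, hx, hxz⟩ := (hL l).2 (W.cl _ z) (by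
    have := W.cl_mem hz
    rwa [show 2 * (e + 1) = 2 * e + 2 by ring] at this)
  have h1 : φ _ x = (q : W.K) • x := by
    rw [← sub_eq_zero]
    refine (hL l).1 _ ((W.gr _ 2).sub_mem (hφ.mem _ _ _ hx) ((W.gr _ 2).smul_mem _ hx)) ?_
    have h2 : φ _ (W.cl _ (h l) ^ e * x) = (q : W.K) ^ e • (W.cl _ (h l) ^ e * φ _ x) := by
      rw [map_mul, map_pow, hφ.cl _ 1 _ (hI l).isCyc, pow_one, smul_pow, smul_mul_assoc]
    rw [hxz, hφ.cl _ _ _ hz, ← hxz, pow_succ, mul_smul] at h2
    have h3 : W.cl _ (h l) ^ e * φ _ x = (q : W.K) • (W.cl _ (h l) ^ e * x) := by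
      have h4 : (q : W.K) ^ e ≠ 0 := pow_ne_zero _ hq
      have h5 := congrArg (fun y => ((q : W.K) ^ e)⁻¹ • y) h2
      simp only [smul_smul, inv_mul_cancel₀ h4, one_smul] at h5
      rw [← mul_assoc, inv_mul_cancel₀ h4, one_mul] at h5
      exact h5.symm
    rw [mul_sub, h3, mul_smul_comm, sub_self]
  set X : CohO W Q := Pi.single l x with hX
  have h2 : X ∈ Submodule.span W.K (divs W Q) := by
    refine mem_span_family fun j => ?_
    by_cases hj : j = l
    · subst hj
      rw [hX, Pi.single_eq_same]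
      exact hT _ x hx h1
    · rw [hX, Pi.single_eq_of_ne hj]; exact Submodule.zero_mem _
  have h3 : X = 0 := by
    refine eq_zero_of_orth hI hd h2 fun y hy => ?_
    obtain ⟨w, hw, hw'⟩ := hy l
    have e1 : clO W h ^ e * X = Pi.single l (W.cl _ z) := by
      rw [hX, mul_single, ← hxz]
      rfl
    rw [e1, (show trO (Pi.single l (W.cl _ z) : CohO W Q) y = W.tr _ (W.cl _ z * y l) from ?_)]
    · rw [← hw', ← W.cl_mul]
      have h4 : (Q l).IsCyc (Q l).dim (ops.mul z w) := by
        have := ops.mul_mem hz hw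
        rwa [show e + 1 + 1 = (Q l).dim by rw [hd]] at this
      have h5 : (Q l).IsCyc ((Q l).dim - (e + 1)) w := by
        rwa [show (Q l).dim - (e + 1) = 1 by rw [hd]; omega]
      rw [W.tr_cl h4, hz' w h5, Rat.cast_zero]
    · rw [trO, Finset.sum_eq_single l]
      · rw [Pi.single_eq_same]
      · intro j _ hj
        rw [Pi.single_eq_of_ne hj, zero_mul, map_zero]
      · intro hl; exact absurd (Finset.mem_univ _) hl
  have h4 : x = 0 := by
    have := congrFun h3 l
    rwa [hX, Pi.single_eq_same] at this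
  change W.cl _ z = 0
  rw [← hxz, h4, mul_zero]

/-! ### Invariants of `H^3` -/

section Main

variable {T : Tower 𝒱} {h : ∀ p, CycO (T.Q p)}

lemma isNull_add {x y : CohO W (T.Q 0)} (hx : IsNull W T x) (hy : IsNull W T y) :
    IsNull W T (x + y) := by
  unfold IsNull at *
  rw [res_add]
  exact isBoundary_add hx hy

lemma isNull_smul (t : W.K) {x : CohO W (T.Q 0)} (hx : IsNull W T x) : IsNull W T (t • x) := by
  unfold IsNull at *
  rw [res_smul]
  exact isBoundary_smul t hx

lemma isNull_sub {x y : CohO W (T.Q 0)} (hx : IsNull W T x) (hy : IsNull W T y) :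
    IsNull W T (x - y) := by
  have := isNull_add hx (isNull_smul (-1) hy)
  rwa [neg_one_smul, ← sub_eq_add_neg] at this

lemma isNull_zero : IsNull W T (0 : CohO W (T.Q 0)) := by
  have := res_smul (T.F 0) (0 : W.K) (0 : CohO W (T.Q 0))
  rw [zero_smul, zero_smul] at this
  unfold IsNull
  rw [this]
  exact isBoundary_zero

lemma isNull_frO (hφ : FrobA W q φ) {d : ℕ} (hdim : ∀ p l, (T.Q p l).dim + p = d)
    {x : CohO W (T.Q 0)} (hx : IsNull W T x) : IsNull W T (frO φ (T.Q 0) x) := by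
  unfold IsNull at *
  rw [← frO_res (T.F 0) hφ]
  exact isBoundary_frO hφ hdim hx

lemma isNull_pow_mul (hT : IsPolarised W T h) (e : ℕ) {x : CohO W (T.Q 0)} (hx : IsNull W T x) :
    IsNull W T (clO W (h 0) ^ e * x) := by
  unfold IsNull at *
  rw [res_pow_mul (HQ := clO W (h 0)) (HR := clO W (h 1)) (fun c => hT.restr 0 c)]
  exact isBoundary_pow_mul (H := fun p => clO W (h p)) hT.restr e hx

lemma frO_gysRes (hφ : FrobA W q φ) {d : ℕ} (hdim : ∀ p l, (T.Q p l).dim + p = d)
    (x : CohO W (T.Q 0)) :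
    frO φ (T.Q 0) (gysRes W T x) = (q : W.K) • gysRes W T (frO φ (T.Q 0) x) := by
  rw [gysRes, gysRes, frO_gys (T.F 0) hφ (fun j l => by
    have h1 : (T.Q (0 + 1) j).dim + (0 + 1) = d := hdim _ j
    have h2 := hdim 0 l
    omega), frO_res (T.F 0) hφ]

lemma KilledA.frO (hφ : FrobA W q φ) {d : ℕ} (hdim : ∀ p l, (T.Q p l).dim + p = d) {i : ℕ}
    {x : CohO W (T.Q 0)} (hx : KilledA W T i x) : KilledA W T i (frO φ (T.Q 0) x) := by
  refine ⟨fun l => hφ.mem _ _ _ (hx.1 l), ?_⟩
  have h1 := frO_gysRes hφ hdim x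
  rw [hx.2, map_zero] at h1
  exact (smul_eq_zero.1 h1.symm).resolve_left hφ.q_ne

/-- The elements of degree `i` with `τ ρ x = 0`. -/
def killed (W : WeilCohomology.{u, v} ops) (T : Tower 𝒱) (i : ℕ) :
    Submodule W.K (CohO W (T.Q 0)) where
  carrier := {x | KilledA W T i x}
  add_mem' := fun {x y} hx hy => ⟨fun l => (W.gr _ i).add_mem (hx.1 l) (hy.1 l), by
    rw [gysRes, res_add, gys_add]
    have h1 := hx.2
    have h2 := hy.2
    rw [gysRes] at h1 h2
    rw [h1, h2, add_zero]⟩
  zero_mem' := ⟨fun l => (W.gr _ i).zero_mem, by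
    have := res_smul (T.F 0) (0 : W.K) (0 : CohO W (T.Q 0))
    rw [zero_smul, zero_smul] at this
    rw [gysRes, this]
    have := gys_smul (T.F 0) (0 : W.K) (0 : CohO W (T.Q 1))
    rwa [zero_smul, zero_smul] at this⟩
  smul_mem' := fun c {x} hx => ⟨fun l => (W.gr _ i).smul_mem _ (hx.1 l), by
    rw [gysRes, res_smul, gys_smul]
    have h1 := hx.2
    rw [gysRes] at h1
    rw [h1, smul_zero]⟩

/-- The elements whose class is zero. -/
def nulls (W : WeilCohomology.{u, v} ops) (T : Tower 𝒱) : Submodule W.K (CohO W (T.Q 0)) where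
  carrier := {x | IsNull W T x}
  add_mem' := fun hx hy => isNull_add hx hy
  zero_mem' := isNull_zero
  smul_mem' := fun c _ hx => isNull_smul c hx

/-- **The invariants of `H^3`.** -/
theorem isNull_of_invariant (hφ : FrobA W q φ) (hP : IsPolarised W T h) {e : ℕ}
    (hdim : ∀ p l, (T.Q p l).dim + p = e + 3) (hT : ∀ l, TateA W q φ (T.Q 0 l))
    {x : CohO W (T.Q 0)} (hx : KilledA W T 2 x)
    (hx' : IsNull W T (frO φ (T.Q 0) x - (q : W.K) • x)) : IsNull W T x := by
  have hq := hφ.q_ne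
  have hd0 : ∀ l, (T.Q 0 l).dim = e + 1 + 2 := fun l => by have := hdim 0 l; omega
  obtain ⟨x₁, hx₁, ⟨n, hn⟩, hxx⟩ := exists_generalized (ψ := nfr q φ (T.Q 0))
    (S := killed W T 2) (B := nulls W T)
    (fun y hy => (killed W T 2).smul_mem _ (KilledA.frO hφ hdim hy))
    (fun y hy => (nulls W T).smul_mem _ (isNull_frO hφ hdim hy)) hx (by
      have h1 := (nulls W T).smul_mem (q : W.K)⁻¹ hx'
      rwa [smul_sub, smul_smul, inv_mul_cancel₀ hq, one_smul] at h1)
  have hx₁' : KilledA W T 2 x₁ := hx₁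
  have h1 := semisimple hφ (hP.index 0) hd0 hT n x₁ hx₁'.1 hn
  have h2 : frO φ (T.Q 0) x₁ = (q : W.K) • x₁ := by
    rw [nfr_apply] at h1
    conv_rhs => rw [← h1]
    rw [smul_smul, mul_inv_cancel₀ hq, one_smul]
  have h3 := mem_span_of_frO hT hx₁'.1 h2
  have h4 : x₁ ∈ nulls W T := by
    obtain ⟨s, b, hb, hbs⟩ := exists_decomp h3
    rw [hbs]
    refine Submodule.sum_mem _ fun i hi => Submodule.smul_mem _ _ ?_
    choose w hw hw' using hb i
    have e1 : b i = clO W w := funext fun l => (hw' l).symm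
    change IsNull W T (b i)
    rw [e1]
    refine hP.numBoundary hdim w hw fun y hy => ?_
    rw [gysRes_adj, ← e1]
    have hya : AlgO W (T.Q 0) (e + 1) (clO W y) := algO_clO hy
    have hga : ∀ i, AlgO W (T.Q 0) 2 (gysRes W T (b i)) := fun i => algO_gysRes hdim (hb i)
    rw [hya.comm]
    have h5 := hx₁'.2
    have h6 : trO (gysRes W T x₁) (clO W y) = 0 := by rw [h5, trO_zero]
    have h7 : gysRes W T x₁ =
        ∑ i ∈ s, (Module.Basis.ofVectorSpace ℚ W.K i) • gysRes W T (b i) := by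
      rw [hbs]
      have hg : ∀ (s : Finset (Module.Basis.ofVectorSpaceIndex ℚ W.K)),
          gysRes W T (∑ i ∈ s, (Module.Basis.ofVectorSpace ℚ W.K i) • b i) =
          ∑ i ∈ s, (Module.Basis.ofVectorSpace ℚ W.K i) • gysRes W T (b i) := by
        classical
        intro s
        induction s using Finset.induction_on with
        | empty =>
          rw [Finset.sum_empty, Finset.sum_empty]
          exact ((killed W T 0).zero_mem).2
        | insert i s hi ih =>
          rw [Finset.sum_insert hi, Finset.sum_insert hi, ← ih]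
          simp only [gysRes]
          rw [res_add, gys_add, res_smul, gys_smul]
      exact hg s
    rw [h7, trO_sum_left] at h6
    exact coeff_zero (r := fun i => trO (gysRes W T (b i)) (clO W y))
      (fun i => trO_rational (d := e + 3) (fun l => by have := hdim 0 l; omega)
        (show 2 + (e + 1) = e + 3 by omega) (hga i) hya) h6 i hi
  have h5 := (nulls W T).add_mem hxx h4
  rw [sub_add_cancel] at h5
  exact h5

end Main

end Run7.h152.C2
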