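import Pool.Agent.Run7.h152.HL.Pol

/-!
# Tate's conjecture for divisors on the components of a special fibre: definitions
-/

set_option autoImplicit false

open CategoryTheory AlgebraicGeometry

universe u v w

namespace Run7.h152.C2

open Pool.Agent.H914 Pool.Agent.H914.VarClass Pool.Agent.H914.VarClass.Obj
  Pool.Agent.H914.WeilCohomology Run7.h152.DR Run7.h152.HL

section Alg

variable {K A : Type*} [Field K] [Ring A] [Algebra K A]

/-- `φ` is an endomorphism of the graded algebra `A` which multiplies the trace by `q ^ n`. -/
structure IsFrobeniusOn (gr : ℕ → Submodule K A) (tr : A →ₗ[K] K) (n q : ℕ) (φ : A → A) :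
    Prop where
  map_one : φ 1 = 1
  map_add : ∀ x y, φ (x + y) = φ x + φ y
  map_mul : ∀ x y, φ (x * y) = φ x * φ y
  map_smul : ∀ (c : K) x, φ (c • x) = c • φ x
  mem : ∀ i, ∀ x ∈ gr i, φ x ∈ gr i
  tr : ∀ x, tr (φ x) = (q : K) ^ n * tr x

/-- `φ x = q ^ p x`. -/
def IsEigen (φ : A → A) (q p : ℕ) (x : A) : Prop := φ x = (q : A) ^ p * x

/-- The elements `x` of `M` with `φ x = q x` are linear combinations of elements of `D`. -/
def TateOn (M : Submodule K A) (φ : A → A) (q : ℕ) (D : Set A) : Prop :=
  ∀ x ∈ M, IsEigen φ q 1 x → x ∈ Submodule.span K D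

/-- Multiplication by `t` is injective on `M`, and the image contains `N`. -/
def LefschetzOn (M N : Submodule K A) (t : A) : Prop :=
  (∀ x ∈ M, t * x = 0 → x = 0) ∧ ∀ y ∈ N, ∃ x ∈ M, t * x = y

end Alg

section Families

variable {ι : Type*} {A : ι → Type*} [∀ i, Ring (A i)]

/-- The product of two families. -/
def mulF (x y : ∀ i, A i) : ∀ i, A i := fun i => x i * y i

/-- The difference of two families. -/
def subF (x y : ∀ i, A i) : ∀ i, A i := fun i => x i - y i

/-- The multiple of a family by a natural number. -/
def timesF (q : ℕ) (x : ∀ i, A i) : ∀ i, A i := fun i => (q : A i) * x i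

/-- The family is zero. -/
def IsZeroF (x : ∀ i, A i) : Prop := ∀ i, x i = 0

end Families

section

variable {k : Type u} [Field k] {𝒱 : VarClass k} {ops : CycleOps 𝒱}

/-- `φ X` is the Frobenius operator on the cohomology of the variety `X` over the field with `q`
elements: the operators respect degrees, products and pull-backs, the Frobenius is `q ^ p` on the
classes of cycles of codimension `p` and of degree `q ^ dim`. -/
structure IsFrobenius (W : WeilCohomology.{u, v} ops) (q : ℕ) (φ : ∀ X : 𝒱.Obj, W.H X → W.H X) :
    Prop where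
  one_lt : 1 < q
  isFrobeniusOn : ∀ X, IsFrobeniusOn (W.gr X) (W.tr X) X.dim q (φ X)
  pull : ∀ (X Y : 𝒱.Obj) (f : Y ⟶ X) x, φ Y (pullC W f x) = pullC W f (φ X x)
  cl : ∀ X p z, X.IsCyc p z → IsEigen (φ X) q p (clC W z)

/-- Tate's conjecture for divisors on `X`: the elements of `H^2(X)` on which the Frobenius is `q` are
linear combinations of classes of divisors, with coefficients in the field of coefficients. -/
def TateForDivisors (W : WeilCohomology.{u, v} ops) (q : ℕ) (X : 𝒱.Obj) (φ : W.H X → W.H X) : Prop :=
  TateOn (W.gr X 2) φ q {y | ∃ z, X.IsCyc 1 z ∧ clC W z = y}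

/-- The hard Lefschetz theorem for `H^2(X)`: multiplication by `h ^ e` is a bijection from
`H^2(X)` to `H^(2 e + 2)(X)`. (Here `dim X = e + 2`.) -/
def HardLefschetzTwo (W : WeilCohomology.{u, v} ops) (X : 𝒱.Obj) (h : X.Cycles) (e : ℕ) : Prop :=
  LefschetzOn (W.gr X 2) (W.gr X (2 * e + 2)) (clC W (powC ops h e))

/-- The families `x` of classes of degree `i` with `τ ρ x = 0`. For even `i` the elements `ρ x` are the
cocycles which represent the elements of weight `i + 2` of `H^(i + 1)` of the generic fibre which are
killed by the monodromy operator. -/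
def Killed (W : WeilCohomology.{u, v} ops) (T : Tower 𝒱) (i : ℕ) (x : CohO W (T.Q 0)) : Prop :=
  (∀ l, x l ∈ W.gr _ i) ∧ IsZeroF (gysRes W T x)

/-- The class of the family `x` with `τ ρ x = 0` in the weight spectral sequence is zero. -/
def IsNull (W : WeilCohomology.{u, v} ops) (T : Tower 𝒱) (x : CohO W (T.Q 0)) : Prop :=
  (shift T).IsBoundary W ((T.F 0).res W x)

/-- The representation `H^3(2)` of the generic fibre has no nonzero element which is killed by the
monodromy operator and fixed by the Frobenius: these are the classes of the `ρ x` with `x` in `H^2` of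
the components, `τ ρ x = 0`, such that the class of `φ x - q x` is zero. -/
def NoInvariantsInThree (W : WeilCohomology.{u, v} ops) (T : Tower 𝒱) (q : ℕ)
    (φ : ∀ X : 𝒱.Obj, W.H X → W.H X) : Prop :=
  ∀ x, Killed W T 2 x → IsNull W T (subF (fun l => φ _ (x l)) (timesF q x)) → IsNull W T x

/-- The classes of the `e`-th powers of the divisors in the family `h`. -/
noncomputable def powO (W : WeilCohomology.{u, v} ops) {a : ℕ} {Q : Fin a → 𝒱.Obj} (h : CycO Q)
    (e : ℕ) : CohO W Q :=
  clO W fun l => powC ops (h l) e

/-- Multiplication by the `e`-th power of the ample divisor is a bijection from the elements of weight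
`4` of `H^3` of the generic fibre which are killed by the monodromy operator to the elements of weight
`2 e + 4` of `H^(2 e + 3)` which are killed by the monodromy operator. For generic fibres of dimension
`e + 3` this is part of the hard Lefschetz theorem for the generic fibre. -/
structure GenericLefschetz (W : WeilCohomology.{u, v} ops) (T : Tower 𝒱) (h : CycO (T.Q 0))
    (e : ℕ) : Prop where
  inj : ∀ x, Killed W T 2 x → IsNull W T (mulF (powO W h e) x) → IsNull W T x
  surj : ∀ y, Killed W T (2 * e + 2) y →
    ∃ x, Killed W T 2 x ∧ IsNull W T (subF y (mulF (powO W h e) x))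

end

/-- The scheme `𝒳` over a complete discrete valuation ring with finite residue field, with generic fibre
of dimension `e + 3`, has a projective strictly semistable alteration with Tate's conjecture for
divisors on the components of its closed fibre. The classes are of codimension `2`. The hard Lefschetz
theorems are for the components of the closed fibre and for the generic fibre. -/
def HasTateAlteration (A : Arith.{w}) (e : ℕ) : Prop :=
  ∃ (A' : Arith.{w}) (Y : Fibre.{u, v, w} A') (h : ∀ p, CycO (Y.T.Q p)) (q : ℕ)
    (φ : ∀ X : Y.𝒱.Obj, Y.W.H X → Y.W.H X),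
    Nonempty (Alteration A' A) ∧ IsSemistable Y 1 (e + 1) ∧ IsPolarised Y.W Y.T h ∧
      IsFrobenius Y.W q φ ∧ GenericLefschetz Y.W Y.T (h 0) e ∧
      (∀ l, HardLefschetzTwo Y.W (Y.T.Q 0 l) (h 0 l) (e + 1)) ∧
      ∀ l, TateForDivisors Y.W q (Y.T.Q 0 l) (φ _)

end Run7.h152.C2
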