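import Mathlib.LinearAlgebra.Basis.VectorSpace
import Mathlib.FieldTheory.Minpoly.Field
import Mathlib.Algebra.Polynomial.Div
import Mathlib.LinearAlgebra.FiniteDimensional.Basic
import Mathlib.RingTheory.Algebraic.Integral
import Mathlib.Algebra.Algebra.Rat

/-!
# Linear algebra
-/

set_option autoImplicit false

namespace Run7.h152.C2

open Polynomial

section

variable {K V : Type*} [Field K] [AddCommGroup V] [Module K V]

lemma aeval_mem {ψ : Module.End K V} {S : Submodule K V} (hS : ∀ x ∈ S, ψ x ∈ S) (g : K[X])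
    {x : V} (hx : x ∈ S) : aeval ψ g x ∈ S := by
  induction g using Polynomial.induction_on' with
  | add p q hp hq => rw [map_add, LinearMap.add_apply]; exact S.add_mem hp hq
  | monomial n c =>
    rw [aeval_monomial, Module.End.mul_apply, Module.algebraMap_end_apply]
    refine S.smul_mem _ ?_
    induction n with
    | zero => rw [pow_zero]; exact hx
    | succ n ih => rw [pow_succ', Module.End.mul_apply]; exact hS _ ih

/-- Elements which are fixed modulo a stable subspace are congruent to elements of the generalised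
eigenspace. -/
lemma exists_generalized [Module.Finite K V] {ψ : Module.End K V} {S B : Submodule K V}
    (hS : ∀ x ∈ S, ψ x ∈ S) (hB : ∀ x ∈ B, ψ x ∈ B) {x : V} (hx : x ∈ S) (hxB : ψ x - x ∈ B) :
    ∃ x₁ ∈ S, (∃ n : ℕ, ((ψ - 1 : Module.End K V) ^ n) x₁ = 0) ∧ x - x₁ ∈ B := by
  have hp : minpoly K ψ ≠ 0 := minpoly.ne_zero (Algebra.IsIntegral.isIntegral ψ)
  obtain ⟨g, hg, hg'⟩ := exists_eq_pow_rootMultiplicity_mul_and_not_dvd _ hp (1 : K)
  set n := rootMultiplicity (1 : K) (minpoly K ψ) with hn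
  have h1 : g.eval 1 ≠ 0 := fun h => hg' (dvd_iff_isRoot.2 h)
  obtain ⟨r, hr⟩ := X_sub_C_dvd_sub_C_eval (a := (1 : K)) (p := g)
  refine ⟨(g.eval 1)⁻¹ • aeval ψ g x, S.smul_mem _ (aeval_mem hS g hx), ⟨n, ?_⟩, ?_⟩
  · have e1 : (ψ - 1) ^ n * aeval ψ g = 0 := by
      have e2 := minpoly.aeval K ψ
      rw [hg, map_mul, map_pow, map_sub, aeval_X, aeval_C, map_one] at e2
      exact e2
    rw [map_smul, ← Module.End.mul_apply, e1, LinearMap.zero_apply, smul_zero]
  · have e1 : aeval ψ g x - g.eval 1 • x = aeval ψ r (ψ x - x) := by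
      have e2 : aeval ψ (g - C (g.eval 1)) x = aeval ψ ((X - C 1) * r) x := by rw [hr]
      rw [map_sub, aeval_C, LinearMap.sub_apply, Module.algebraMap_end_apply, mul_comm, map_mul,
        Module.End.mul_apply, map_sub, aeval_X, aeval_C, map_one, LinearMap.sub_apply,
        Module.End.one_apply] at e2
      exact e2
    have e2 : x - (g.eval 1)⁻¹ • aeval ψ g x = -((g.eval 1)⁻¹ • aeval ψ r (ψ x - x)) := by
      rw [← e1, smul_sub, smul_smul, inv_mul_cancel₀ h1, one_smul]
      abel
    rw [e2]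
    exact B.neg_mem (B.smul_mem _ (aeval_mem hB r hxB))

/-- Combinations of elements of a rational subspace. -/
lemma exists_basis_sum [CharZero K] {A : Set V} (h0 : (0 : V) ∈ A)
    (hadd : ∀ x ∈ A, ∀ y ∈ A, x + y ∈ A) (hsmul : ∀ q : ℚ, ∀ x ∈ A, (q : K) • x ∈ A) {x : V}
    (hx : x ∈ Submodule.span K A) :
    ∃ (s : Finset (Module.Basis.ofVectorSpaceIndex ℚ K))
      (a : Module.Basis.ofVectorSpaceIndex ℚ K → V), (∀ b, a b ∈ A) ∧
        x = ∑ b ∈ s, (Module.Basis.ofVectorSpace ℚ K b) • a b := by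
  classical
  set 𝔅 := Module.Basis.ofVectorSpace ℚ K with h𝔅
  obtain ⟨n, f, g, hfg⟩ := Submodule.mem_span_set'.1 hx
  refine ⟨Finset.univ.biUnion fun i => (𝔅.repr (f i)).support,
    fun b => ∑ i, ((𝔅.repr (f i) b : ℚ) : K) • (g i : V), fun b => ?_, ?_⟩
  · refine Finset.sum_induction _ (· ∈ A) (fun x y hx hy => hadd x hx y hy) h0 fun i _ => ?_
    exact hsmul _ _ (g i).2
  · rw [← hfg]
    simp only [Finset.smul_sum]
    rw [Finset.sum_comm]
    refine Finset.sum_congr rfl fun i _ => ?_
    have e1 : f i = ∑ b ∈ Finset.univ.biUnion fun i => (𝔅.repr (f i)).support,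
        𝔅 b * ((𝔅.repr (f i) b : ℚ) : K) := by
      conv_lhs => rw [← 𝔅.linearCombination_repr (f i)]
      rw [Finsupp.linearCombination_apply, Finsupp.sum_of_support_subset (s :=
        Finset.univ.biUnion fun i => (𝔅.repr (f i)).support)]
      · exact Finset.sum_congr rfl fun b _ => by rw [Rat.smul_def, mul_comm]
      · exact Finset.subset_biUnion_of_mem (fun i => (𝔅.repr (f i)).support) (Finset.mem_univ i)
      · intro b _; exact zero_smul _ _
    conv_lhs => rw [e1, Finset.sum_smul]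
    exact Finset.sum_congr rfl fun b _ => by rw [smul_smul]

/-- The coefficients of a basis over `ℚ` are independent. -/
lemma coeff_zero [CharZero K] {s : Finset (Module.Basis.ofVectorSpaceIndex ℚ K)}
    {r : Module.Basis.ofVectorSpaceIndex ℚ K → K} (hr : ∀ b, ∃ q : ℚ, r b = q)
    (h : ∑ b ∈ s, (Module.Basis.ofVectorSpace ℚ K b) * r b = 0) : ∀ b ∈ s, r b = 0 := by
  choose q hq using hr
  have h1 := linearIndependent_iff'.1 (Module.Basis.ofVectorSpace ℚ K).linearIndependent s q (by
    rw [← h]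
    exact Finset.sum_congr rfl fun b _ => by rw [hq b, Rat.smul_def, mul_comm])
  intro b hb
  rw [hq b, h1 b hb, Rat.cast_zero]

end

end Run7.h152.C2
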