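import Pool.Agent.Run7.h152.C2.Old
import Pool.Agent.Run7.h152.C2.Lin
import Pool.Agent.Run7.h152.HL.Five

/-!
# The Frobenius on the strata
-/

set_option autoImplicit false

open CategoryTheory AlgebraicGeometry

universe u v w

namespace Run7.h152.C2

open Pool.Agent.H914 Pool.Agent.H914.VarClass Pool.Agent.H914.VarClass.Obj
  Pool.Agent.H914.WeilCohomology Run7.h152.DR Run7.h152.HL

variable {k : Type u} [Field k] {𝒱 : VarClass k} {ops : CycleOps 𝒱}
  {W : WeilCohomology.{u, v} ops} {q : ℕ} {φ : ∀ X : 𝒱.Obj, W.H X →ₐ[W.K] W.H X}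

lemma FrobA.q_ne (hφ : FrobA W q φ) : (q : W.K) ≠ 0 := by
  have := hφ.one_lt
  exact_mod_cast (by omega : q ≠ 0)

lemma FrobA.injective (hφ : FrobA W q φ) (X : 𝒱.Obj) :
    Function.Injective (φ X) := by
  rw [injective_iff_map_eq_zero]
  intro x hx
  refine W.nondeg x fun y => ?_
  have h1 := hφ.tr X (x * y)
  rw [map_mul, hx, zero_mul, map_zero] at h1
  exact (mul_eq_zero.1 h1.symm).resolve_left (pow_ne_zero _ hφ.q_ne)

lemma FrobA.surjective (hφ : FrobA W q φ) (X : 𝒱.Obj) :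
    Function.Surjective (φ X) := by
  have h1 : Function.Injective (φ X).toLinearMap := hφ.injective X
  exact LinearMap.injective_iff_surjective.1 h1

lemma FrobA.push (hφ : FrobA W q φ) {X Y : 𝒱.Obj} (f : Y ⟶ X) (hd : Y.dim + 1 = X.dim)
    (y : W.H Y) : φ X (W.push f y) = (q : W.K) • W.push f (φ Y y) := by
  rw [← sub_eq_zero]
  refine W.nondeg _ fun b => ?_
  obtain ⟨x, rfl⟩ := hφ.surjective X b
  rw [sub_mul, map_sub, ← map_mul, hφ.tr, W.tr_push, smul_mul_assoc, map_smul, W.tr_push,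
    ← hφ.pull, ← map_mul, hφ.tr, smul_eq_mul, ← hd, pow_succ]
  ring

lemma frO_apply {a : ℕ} (Q : Fin a → 𝒱.Obj) (x : CohO W Q) (l : Fin a) :
    frO φ Q x l = φ (Q l) (x l) := rfl

lemma frO_mul {a : ℕ} (Q : Fin a → 𝒱.Obj) (x y : CohO W Q) :
    frO φ Q (x * y) = frO φ Q x * frO φ Q y := by
  funext l
  rw [frO_apply, Pi.mul_apply, map_mul]
  rfl

lemma frO_alg (hφ : FrobA W q φ) {a : ℕ} {Q : Fin a → 𝒱.Obj} {p : ℕ} {x : CohO W Q}
    (hx : AlgO W Q p x) : frO φ Q x = (q : W.K) ^ p • x := by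
  funext l
  obtain ⟨z, hz, hz'⟩ := hx l
  rw [frO_apply, ← hz', hφ.cl _ p z hz, Pi.smul_apply, hz']

lemma frO_single {a : ℕ} (Q : Fin a → 𝒱.Obj) (l : Fin a) (x : W.H (Q l)) :
    frO φ Q (Pi.single l x) = Pi.single l (φ (Q l) x) := by
  funext j
  rw [frO_apply]
  by_cases hj : j = l
  · subst hj; rw [Pi.single_eq_same, Pi.single_eq_same]
  · rw [Pi.single_eq_of_ne hj, Pi.single_eq_of_ne hj, map_zero]

section Faces

variable {a b : ℕ} {Q : Fin a → 𝒱.Obj} {R : Fin b → 𝒱.Obj} (F : FacesO R Q)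

lemma frO_res (hφ : FrobA W q φ) (x : CohO W Q) :
    frO φ R (F.res W x) = F.res W (frO φ Q x) := by
  rw [resO_apply, resO_apply, map_sum]
  refine Finset.sum_congr rfl fun c _ => ?_
  rw [map_smul, frO_single, hφ.pull, frO_apply]

lemma frO_gys (hφ : FrobA W q φ) (hd : ∀ j l, (R j).dim + 1 = (Q l).dim) (y : CohO W R) :
    frO φ Q (F.gys W y) = (q : W.K) • F.gys W (frO φ R y) := by
  rw [gysO_apply, gysO_apply, map_sum, Finset.smul_sum]
  refine Finset.sum_congr rfl fun c _ => ?_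
  rw [map_smul, frO_single, hφ.push _ (hd _ _), frO_apply, Pi.single_smul, smul_comm]

lemma trO_frO (hφ : FrobA W q φ) {d : ℕ} (hd : ∀ l, (Q l).dim = d) (x y : CohO W Q) :
    trO (frO φ Q x) (frO φ Q y) = (q : W.K) ^ d * trO x y := by
  rw [trO, trO, Finset.mul_sum]
  refine Finset.sum_congr rfl fun l _ => ?_
  rw [frO_apply, frO_apply, ← map_mul, hφ.tr, hd]

end Faces

/-! ### Boundaries -/

section Null

variable {T : Tower 𝒱}

lemma isBoundary_add {x y : CohO W (T.Q 1)} (hx : (shift T).IsBoundary W x)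
    (hy : (shift T).IsBoundary W y) : (shift T).IsBoundary W (x + y) := by
  obtain ⟨b, hb, hb'⟩ : ∃ b : ∀ p, CohO W (T.Q (p + 1)), (T.F 1).gys W (b 1) = x ∧
      ∀ p, (T.F (p + 2)).res W (b (p + 1)) + (T.F (p + 3)).gys W (b (p + 3)) = 0 := hx
  obtain ⟨c, hc, hc'⟩ : ∃ b : ∀ p, CohO W (T.Q (p + 1)), (T.F 1).gys W (b 1) = y ∧
      ∀ p, (T.F (p + 2)).res W (b (p + 1)) + (T.F (p + 3)).gys W (b (p + 3)) = 0 := hy
  refine ⟨fun p => b p + c p, ?_, fun p => ?_⟩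
  · change (T.F 1).gys W (b 1 + c 1) = x + y
    rw [gys_add, hb, hc]
  · change (T.F (p + 2)).res W (b (p + 1) + c (p + 1)) +
      (T.F (p + 3)).gys W (b (p + 3) + c (p + 3)) = 0
    rw [res_add, gys_add, add_add_add_comm, hb', hc', add_zero]

lemma isBoundary_smul (t : W.K) {x : CohO W (T.Q 1)} (hx : (shift T).IsBoundary W x) :
    (shift T).IsBoundary W (t • x) := by
  obtain ⟨b, hb, hb'⟩ : ∃ b : ∀ p, CohO W (T.Q (p + 1)), (T.F 1).gys W (b 1) = x ∧
      ∀ p, (T.F (p + 2)).res W (b (p + 1)) + (T.F (p + 3)).gys W (b (p + 3)) = 0 := hx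
  refine ⟨fun p => t • b p, ?_, fun p => ?_⟩
  · change (T.F 1).gys W (t • b 1) = t • x
    rw [gys_smul, hb]
  · change (T.F (p + 2)).res W (t • b (p + 1)) + (T.F (p + 3)).gys W (t • b (p + 3)) = 0
    rw [res_smul, gys_smul, ← smul_add, hb', smul_zero]

lemma isBoundary_zero : (shift T).IsBoundary W (0 : CohO W (T.Q 1)) := by
  have g0 : ∀ p, (T.F p).gys W (0 : CohO W (T.Q (p + 1))) = 0 := fun p => by
    have := gys_smul (T.F p) (0 : W.K) (0 : CohO W (T.Q (p + 1)))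
    rwa [zero_smul, zero_smul] at this
  have r0 : ∀ p, (T.F p).res W (0 : CohO W (T.Q p)) = 0 := fun p => by
    have := res_smul (T.F p) (0 : W.K) (0 : CohO W (T.Q p))
    rwa [zero_smul, zero_smul] at this
  refine ⟨fun p => (0 : CohO W (T.Q (p + 1))), g0 1, fun p => ?_⟩
  change (T.F (p + 2)).res W (0 : CohO W (T.Q (p + 2))) +
    (T.F (p + 3)).gys W (0 : CohO W (T.Q (p + 4))) = 0
  rw [r0, g0, add_zero]

/-- Boundaries are stable under the Frobenius. -/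
lemma isBoundary_frO (hφ : FrobA W q φ) {d : ℕ} (hdim : ∀ p l, (T.Q p l).dim + p = d)
    {x : CohO W (T.Q 1)} (hx : (shift T).IsBoundary W x) :
    (shift T).IsBoundary W (frO φ (T.Q 1) x) := by
  obtain ⟨b, hb, hb'⟩ : ∃ b : ∀ p, CohO W (T.Q (p + 1)), (T.F 1).gys W (b 1) = x ∧
      ∀ p, (T.F (p + 2)).res W (b (p + 1)) + (T.F (p + 3)).gys W (b (p + 3)) = 0 := hx
  have hd : ∀ p j l, (T.Q (p + 1) j).dim + 1 = (T.Q p l).dim := fun p j l => by
    have h1 := hdim (p + 1) j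
    have h2 := hdim p l
    omega
  refine ⟨fun p => (q : W.K) ^ ((p + 1) / 2) • frO φ (T.Q (p + 1)) (b p), ?_, fun p => ?_⟩
  · change (T.F 1).gys W ((q : W.K) ^ 1 • frO φ (T.Q 2) (b 1)) = frO φ (T.Q 1) x
    rw [gys_smul, pow_one, ← frO_gys (T.F 1) hφ (hd 1), hb]
  · change (T.F (p + 2)).res W ((q : W.K) ^ ((p + 1 + 1) / 2) • frO φ (T.Q (p + 2)) (b (p + 1))) +
      (T.F (p + 3)).gys W ((q : W.K) ^ ((p + 3 + 1) / 2) • frO φ (T.Q (p + 4)) (b (p + 3))) = 0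
    have e1 : (p + 3 + 1) / 2 = (p + 1 + 1) / 2 + 1 := by omega
    rw [res_smul, gys_smul, e1, pow_succ, mul_smul, ← frO_gys (T.F (p + 3)) hφ (hd (p + 3)),
      ← smul_add, ← frO_res (T.F (p + 2)) hφ, ← map_add, hb', map_zero, smul_zero]

/-- Boundaries are stable under multiplication with the ample divisor. -/
lemma isBoundary_pow_mul {H : ∀ p, CohO W (T.Q p)}
    (hr : ∀ p c, H (p + 1) ((T.F p).src c) = W.map ((T.F p).map c) (H p ((T.F p).tgt c))) (e : ℕ)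
    {x : CohO W (T.Q 1)} (hx : (shift T).IsBoundary W x) :
    (shift T).IsBoundary W (H 1 ^ e * x) := by
  obtain ⟨b, hb, hb'⟩ : ∃ b : ∀ p, CohO W (T.Q (p + 1)), (T.F 1).gys W (b 1) = x ∧
      ∀ p, (T.F (p + 2)).res W (b (p + 1)) + (T.F (p + 3)).gys W (b (p + 3)) = 0 := hx
  refine ⟨fun p => H (p + 1) ^ e * b p, ?_, fun p => ?_⟩
  · change (T.F 1).gys W (H 2 ^ e * b 1) = H 1 ^ e * x
    rw [gys_pow_mul (hr 1), hb]
  · change (T.F (p + 2)).res W (H (p + 2) ^ e * b (p + 1)) +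
      (T.F (p + 3)).gys W (H (p + 4) ^ e * b (p + 3)) = 0
    rw [res_pow_mul (hr (p + 2)), gys_pow_mul (hr (p + 3)), ← mul_add, hb', mul_zero]

end Null

end Run7.h152.C2
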