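import Pool.Agent.Run7.h152.C2.Core
import Pool.Agent.Run7.h152.HL.Main

/-!
# Orthogonal lifts of cycles of codimension two
-/

set_option autoImplicit false

open CategoryTheory AlgebraicGeometry

universe u v w

namespace Run7.h152.C2

open Pool.Agent.H914 Pool.Agent.H914.VarClass Pool.Agent.H914.VarClass.Obj
  Pool.Agent.H914.WeilCohomology Run7.h152.DR Run7.h152.HL

variable {k : Type u} [Field k] {𝒱 : VarClass k} {ops : CycleOps 𝒱}
  {W : WeilCohomology.{u, v} ops} {q : ℕ} {φ : ∀ X : 𝒱.Obj, W.H X →ₐ[W.K] W.H X}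

/-- There are no invariants in `H^(2 e + 3)` for generic fibres of dimension `e + 3`. -/
theorem noInvariants {T : Tower 𝒱} {h : ∀ p, CycO (T.Q p)} (hφ : FrobA W q φ)
    (hP : IsPolarised W T h) {e : ℕ} (hdim : ∀ p l, (T.Q p l).dim + p = e + 3)
    (hT : ∀ l, TateA W q φ (T.Q 0 l)) (hG : GenA W T (h 0) e) :
    NoInvariants W T (e + 1) := by
  intro z hz hz0
  have hq := hφ.q_ne
  have hH : AlgO W (T.Q 0) 1 (clO W (h 0)) := algO_clh (hP.index 0)
  have hK : KilledA W T (2 * e + 2) (clO W z) := ⟨fun l => by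
    have := W.cl_mem (hz l)
    rwa [show 2 * (e + 1) = 2 * e + 2 by ring] at this, hz0⟩
  obtain ⟨x, hx, hxz⟩ := hG.surj _ hK
  set D := clO W z - clO W (h 0) ^ e * x with hD
  have h1 : IsNull W T (frO φ (T.Q 0) x - (q : W.K) • x) := by
    refine hG.inj _ ((killed W T 2).sub_mem (KilledA.frO hφ hdim hx)
      ((killed W T 2).smul_mem _ hx)) ?_
    have e1 : frO φ (T.Q 0) D = (q : W.K) ^ (e + 1) • clO W z -
        (q : W.K) ^ e • (clO W (h 0) ^ e * frO φ (T.Q 0) x) := by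
      rw [hD, map_sub, frO_mul, frO_alg hφ (hH.pow (p := e)), frO_alg hφ (algO_clO hz),
        smul_mul_assoc]
    have h4 : (q : W.K) ^ e ≠ 0 := pow_ne_zero _ hq
    have e2 : clO W (h 0) ^ e * (frO φ (T.Q 0) x - (q : W.K) • x) =
        (q : W.K) • D - ((q : W.K) ^ e)⁻¹ • frO φ (T.Q 0) D := by
      rw [e1, hD, smul_sub, smul_sub, smul_smul (((q : W.K) ^ e)⁻¹), smul_smul (((q : W.K) ^ e)⁻¹),
        pow_succ, ← mul_assoc, inv_mul_cancel₀ h4, one_mul, one_smul, mul_sub, mul_smul_comm]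
      abel
    rw [e2]
    exact isNull_sub (isNull_smul _ hxz) (isNull_smul _ (isNull_frO hφ hdim hxz))
  have h2 := isNull_of_invariant hφ hP hdim hT hx h1
  have h3 := isNull_add hxz (isNull_pow_mul hP e h2)
  rw [hD, sub_add_cancel] at h3
  exact h3

end Run7.h152.C2
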