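import Pool.Agent.Run7.h152.C2.Defs

/-!
# Tate's conjecture for divisors on the components of a special fibre: definitions
-/

set_option autoImplicit false

open CategoryTheory AlgebraicGeometry

universe u v w

namespace Run7.h152.C2

open Pool.Agent.H914 Pool.Agent.H914.VarClass Pool.Agent.H914.VarClass.Obj
  Pool.Agent.H914.WeilCohomology Run7.h152.DR Run7.h152.HL

section

variable {k : Type u} [Field k] {𝒱 : VarClass k} {ops : CycleOps 𝒱}

/-- `φ X` is the Frobenius operator on the cohomology of the variety `X` over the field with `q`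
elements: the operators respect degrees, products and pull-backs, the Frobenius is `q ^ p` on the
classes of cycles of codimension `p` and of degree `q ^ dim`. -/
structure FrobA (W : WeilCohomology.{u, v} ops) (q : ℕ)
    (φ : ∀ X : 𝒱.Obj, W.H X →ₐ[W.K] W.H X) : Prop where
  one_lt : 1 < q
  mem : ∀ X i, ∀ x ∈ W.gr X i, φ X x ∈ W.gr X i
  pull : ∀ (X Y : 𝒱.Obj) (f : Y ⟶ X) x, φ Y (W.map f x) = W.map f (φ X x)
  cl : ∀ X p z, X.IsCyc p z → φ X (W.cl X z) = (q : W.K) ^ p • W.cl X z
  tr : ∀ X x, W.tr X (φ X x) = (q : W.K) ^ X.dim * W.tr X x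

/-- Tate's conjecture for divisors on `X`: the elements of `H^2(X)` on which the Frobenius is `q` are
linear combinations of classes of divisors, with coefficients in the field of coefficients. -/
def TateA (W : WeilCohomology.{u, v} ops) (q : ℕ)
    (φ : ∀ X : 𝒱.Obj, W.H X →ₐ[W.K] W.H X) (X : 𝒱.Obj) : Prop :=
  ∀ x ∈ W.gr X 2, φ X x = (q : W.K) • x →
    x ∈ Submodule.span W.K {y | ∃ z, X.IsCyc 1 z ∧ W.cl X z = y}

/-- The hard Lefschetz theorem for `H^2(X)`: multiplication by `h ^ (dim - 2)` is a bijection from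
`H^2(X)` to `H^(2 dim - 2)(X)`. -/
def LefA (W : WeilCohomology.{u, v} ops) (X : 𝒱.Obj) (h : X.Cycles) (e : ℕ) : Prop :=
  (∀ x ∈ W.gr X 2, W.cl X h ^ e * x = 0 → x = 0) ∧
    ∀ y ∈ W.gr X (2 * e + 2), ∃ x ∈ W.gr X 2, W.cl X h ^ e * x = y

/-- The families `x` of classes of degree `i` with `τ ρ x = 0`. For even `i` the elements `ρ x` are the
cocycles which represent the elements of weight `i + 2` of `H^(i + 1)` of the generic fibre which are
killed by the monodromy operator. -/
def KilledA (W : WeilCohomology.{u, v} ops) (T : Tower 𝒱) (i : ℕ) (x : CohO W (T.Q 0)) : Prop :=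
  (∀ l, x l ∈ W.gr _ i) ∧ gysRes W T x = 0

/-- The Frobenius on families of cohomology classes. -/
def frO {W : WeilCohomology.{u, v} ops} (φ : ∀ X : 𝒱.Obj, W.H X →ₐ[W.K] W.H X) {a : ℕ}
    (Q : Fin a → 𝒱.Obj) : CohO W Q →ₗ[W.K] CohO W Q :=
  LinearMap.pi fun l => (φ (Q l)).toLinearMap ∘ₗ LinearMap.proj l

/-- The representation `H^3(2)` of the generic fibre has no nonzero element which is killed by the
monodromy operator and fixed by the Frobenius: these are the classes of the `ρ x` with `x` in `H^2` of
the components, `τ ρ x = 0`, such that the class of `φ x - q x` is zero. -/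
def NoInvA (W : WeilCohomology.{u, v} ops) (T : Tower 𝒱) (q : ℕ)
    (φ : ∀ X : 𝒱.Obj, W.H X →ₐ[W.K] W.H X) : Prop :=
  ∀ x, KilledA W T 2 x → IsNull W T (frO φ (T.Q 0) x - (q : W.K) • x) → IsNull W T x

/-- Multiplication by the `e`-th power of the ample divisor is a bijection from the elements of weight
`4` of `H^3` of the generic fibre which are killed by the monodromy operator to the elements of weight
`2 e + 4` of `H^(2 e + 3)` which are killed by the monodromy operator. For generic fibres of dimension
`e + 3` this is part of the hard Lefschetz theorem for the generic fibre. -/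
structure GenA (W : WeilCohomology.{u, v} ops) (T : Tower 𝒱) (h : CycO (T.Q 0))
    (e : ℕ) : Prop where
  inj : ∀ x, KilledA W T 2 x → IsNull W T (clO W h ^ e * x) → IsNull W T x
  surj : ∀ y, KilledA W T (2 * e + 2) y → ∃ x, KilledA W T 2 x ∧ IsNull W T (y - clO W h ^ e * x)

end

end Run7.h152.C2
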